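import Pool.Agent.Run7.h347.OW.Iface

set_option autoImplicit false

open Set Filter Topology Pool.Agent.Results.MP_76989b_gt.NotFrechetUrysohn
open Pool.Agent.Run7.h347.OW

namespace Run7.h347.OW

theorem t_FI {X : Type*} [TopologicalSpace X] (hSO : S_SO X) : S_FI X := by
  intro hSS f O hO hev hdisc hcount A hA
  classical
  set D' : Set X := closure {x | ¬ ContinuousAt f.1 x} with hD'
  set Q : Set X := ⋃ n, closure (O n) \ O n with hQ
  have hD'O : ∀ n, D' ⊆ closure (O n) := fun n =>
    closure_minimal (fun x hx => hdisc x n hx) isClosed_closure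
  have hD'Q : D' ⊆ Q := by
    intro x hx
    obtain ⟨n, hn⟩ := (hev x).exists
    exact Set.mem_iUnion.2 ⟨n, hD'O n hx, hn⟩
  -- the finite parts of `Q`
  obtain ⟨q, hq⟩ : ∃ q : ℕ → Set X, (∀ n, (q n).Finite) ∧ ∀ y ∈ Q, ∀ᶠ n in atTop, y ∈ q n := by
    rcases Set.eq_empty_or_nonempty Q with h0 | hne
    · refine ⟨fun _ => ∅, fun _ => Set.finite_empty, ?_⟩
      intro y hy
      rw [h0] at hy
      exact hy.elim
    · obtain ⟨e, he⟩ := hcount.exists_eq_range hne
      refine ⟨fun n => e '' {i | i < n}, fun n => (Set.finite_lt_nat n).image _, ?_⟩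
      intro y hy
      rw [he] at hy
      obtain ⟨i, rfl⟩ := hy
      filter_upwards [eventually_gt_atTop i] with n hn
      exact ⟨i, hn, rfl⟩
  set W : ℕ → Qp X → Set X := fun n g => {x | |g.1 x - f.1 x| < 1 / ((n : ℝ) + 1)} with hW
  set V : ℕ → Qp X → Set X := fun n g => W n g ∪ D' ∪ O n with hV
  have hpos : ∀ n : ℕ, (0 : ℝ) < 1 / ((n : ℝ) + 1) := fun n => by positivity
  have hsemi : ∀ n g, V n g ⊆ closure (interior (V n g)) := by
    intro n g x hx
    have hOi : O n ⊆ interior (V n g) :=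
      interior_maximal Set.subset_union_right (hO n)
    rcases hx with (hx | hx) | hx
    · by_cases hxD : x ∈ D'
      · exact closure_mono hOi (hD'O n hxD)
      · have hc : ContinuousAt f.1 x := by
          by_contra hcon
          exact hxD (subset_closure hcon)
        rw [mem_closure_iff]
        intro G hG hxG
        obtain ⟨W', hW', ⟨w, hw⟩, hWG, hWV⟩ := hSO f.1 g.1 g.2 x hc {t | t < 1 / ((n : ℝ) + 1)}
          (isOpen_lt continuous_id continuous_const) hx G hG hxG
        refine ⟨w, hWG hw, ?_⟩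
        rw [mem_interior]
        exact ⟨W', fun z hz => Or.inl (Or.inl (hWV z hz)), hW', hw⟩
    · exact closure_mono hOi (hD'O n hx)
    · exact subset_closure (hOi hx)
  set U : ℕ → Qp X → Set X := fun n g => V n g ∪ interior (closure (V n g)) with hU
  set An : ℕ → Set (Qp X) := fun n =>
    {g | g ∈ A ∧ ∀ x ∈ q n, |g.1 x - f.1 x| < 1 / ((n : ℝ) + 1)} with hAn
  have happrox : ∀ (n : ℕ) (F : Set X), F.Finite →
      ∃ g ∈ A, ∀ x ∈ F, |g.1 x - f.1 x| < 1 / ((n : ℝ) + 1) := by
    intro n F hF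
    have hopen : IsOpen {g : Qp X | ∀ x ∈ F, |g.1 x - f.1 x| < 1 / ((n : ℝ) + 1)} := by
      have h1 : {g : Qp X | ∀ x ∈ F, |g.1 x - f.1 x| < 1 / ((n : ℝ) + 1)} =
          ⋂ x ∈ F, {g : Qp X | |g.1 x - f.1 x| < 1 / ((n : ℝ) + 1)} := by
        ext g
        simp
      rw [h1]
      refine hF.isOpen_biInter fun x _ => ?_
      have hc : Continuous fun g : Qp X => |g.1 x - f.1 x| :=
        (((continuous_apply x).comp continuous_subtype_val).sub continuous_const).abs
      exact isOpen_lt hc continuous_const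
    have hmem : f ∈ {g : Qp X | ∀ x ∈ F, |g.1 x - f.1 x| < 1 / ((n : ℝ) + 1)} := by
      intro x _
      simpa using hpos n
    obtain ⟨g, hg, hgA⟩ := mem_closure_iff.1 hA _ hopen hmem
    exact ⟨g, hgA, hg⟩
  have hcov : ∀ n, (fun g => U n g) '' An n ∈ OmegaS X := by
    intro n
    have hfin : ∀ F : Set X, F.Finite → ∃ u ∈ (fun g => U n g) '' An n, F ⊆ u := by
      intro F hF
      obtain ⟨g, hgA, hg⟩ := happrox n (F ∪ q n) (hF.union (hq.1 n))
      refine ⟨U n g, ⟨g, ⟨hgA, fun x hx => hg x (Or.inr hx)⟩, rfl⟩, ?_⟩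
      intro x hx
      exact Or.inl (Or.inl (Or.inl (hg x (Or.inl hx))))
    refine ⟨?_, ?_, hfin⟩
    · rw [Set.eq_univ_iff_forall]
      intro x
      obtain ⟨u, hu, hxu⟩ := hfin {x} (Set.finite_singleton x)
      exact ⟨u, hu, hxu rfl⟩
    · rintro _ ⟨g, _, rfl⟩
      exact minBounded_union (hsemi n g)
  obtain ⟨Us, hUs, hUe⟩ := hSS _ hcov
  choose s hs hsU using hUs
  refine ⟨s, fun n => (hs n).1, ?_⟩
  rw [tendsto_subtype_rng, tendsto_pi_nhds]
  intro y
  have hle : ∀ᶠ n in atTop, |(s n).1 y - f.1 y| ≤ 1 / ((n : ℝ) + 1) := by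
    by_cases hy : y ∈ Q
    · filter_upwards [hq.2 y hy] with n hn
      exact le_of_lt ((hs n).2 y hn)
    · filter_upwards [hUe y, hev y] with n hn hyO
      have hyD : y ∉ D' := fun h => hy (hD'Q h)
      have hycl : y ∉ closure (O n) := fun h => hy (Set.mem_iUnion.2 ⟨n, h, hyO⟩)
      rw [← hsU n] at hn
      rcases hn with ((hn | hn) | hn) | hn
      · exact le_of_lt hn
      · exact absurd hn hyD
      · exact absurd hn hyO
      · by_contra hcon
        push Not at hcon
        have hc : ContinuousAt f.1 y := by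
          by_contra hcon
          exact hyD (subset_closure hcon)
        obtain ⟨W', hW', ⟨w, hw⟩, hWG, hWV⟩ := hSO f.1 (s n).1 (s n).2 y hc
          {t | 1 / ((n : ℝ) + 1) < t} (isOpen_lt continuous_const continuous_id) hcon
          (interior (closure (V n (s n))) ∩ (D'ᶜ ∩ (closure (O n))ᶜ))
          (isOpen_interior.inter (isClosed_closure.isOpen_compl.inter
            isClosed_closure.isOpen_compl)) ⟨hn, hyD, hycl⟩
        have h1 : w ∈ closure (V n (s n)) := interior_subset (hWG hw).1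
        obtain ⟨z, hzW, hzV⟩ := mem_closure_iff.1 h1 W' hW' hw
        have hz2 := (hWG hzW).2
        rcases hzV with (hz | hz) | hz
        · have h2 : 1 / ((n : ℝ) + 1) < |(s n).1 z - f.1 z| := hWV z hzW
          have h3 : |(s n).1 z - f.1 z| < 1 / ((n : ℝ) + 1) := hz
          exact absurd (lt_trans h2 h3) (lt_irrefl _)
        · exact hz2.1 hz
        · exact hz2.2 (subset_closure hz)
  have hlim : Tendsto (fun n : ℕ => 1 / ((n : ℝ) + 1)) atTop (𝓝 0) :=
    tendsto_one_div_add_atTop_nhds_zero_nat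
  rw [tendsto_iff_norm_sub_tendsto_zero]
  refine squeeze_zero' (Eventually.of_forall fun n => norm_nonneg _) ?_ hlim
  filter_upwards [hle] with n hn
  simpa [Real.norm_eq_abs] using hn

end Run7.h347.OW
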