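import Pool.Agent.Results.MP_76989b_gt.NotFrechetUrysohn

/-!
# Project OW (MP_76989b_gt Q2): open Whyburn + `S₁(Ω^s, Γ^s)` implies `Q_p(X, ℝ)` Fréchet-Urysohn

Here nowhere dense closed is `IsClosed N ∧ interior N = ∅`.
-/

set_option autoImplicit false

open Set Filter Topology Pool.Agent.Results.MP_76989b_gt.NotFrechetUrysohn

namespace Pool.Agent.Run7.h347.OW

/-- Open Whyburn spaces. -/
def OpenWhyburn (X : Type*) [TopologicalSpace X] : Prop :=
  ∀ A : Set X, IsOpen A → ∀ x ∈ closure A \ A,
    ∃ B : Set X, IsOpen B ∧ B ⊆ A ∧ closure B \ A = {x}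

/-- **A** (50 lines). Nowhere dense closed sets `N` are countable. Proof.  The family
`{closure B : B open, (closure B ∩ N).Finite}` is in `OmegaS X`: closures of open sets are
`MinBounded`, finite unions of such sets are such sets, and each `x` lies in one: if `x` is isolated
take `B = {x}`; otherwise `A = (N ∪ {x})ᶜ` is open and dense, `x ∈ closure A \ A`, so there is an open
`B ⊆ A` with `closure B \ A = {x}`, and `closure B ∩ N ⊆ {x}`.  Apply `S1OmegaGamma` to the constant
sequence: countably many such sets cover `X`. -/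
def S_A (X : Type*) [TopologicalSpace X] : Prop := T2Space X → OpenWhyburn X → S1OmegaGamma X →
  ∀ N : Set X, IsClosed N → interior N = ∅ → N.Countable

/-- **T** (30 lines). Proof. `exists_seq_infinite_isOpen_pairwise_disjoint` gives disjoint nonempty
open `G j`; for `x ∈ G j` isolated `T j = {x}`; otherwise open Whyburn for `A = G j \ {x}` gives an open
`B ⊆ A` with `closure B \ A = {x}`, so `closure B ⊆ G j`; `T j = B` (nonempty as `x ∈ closure B`). -/
def S_T (X : Type*) [TopologicalSpace X] : Prop := T2Space X → Infinite X → OpenWhyburn X →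
  ∃ (T : ℕ → Set X) (t : ℕ → X), (∀ j, IsOpen (T j)) ∧ (∀ j, t j ∈ T j) ∧
    Pairwise (fun i j => Disjoint (closure (T i)) (closure (T j)))

/-- **R** (from T; 60 lines). Proof. Given `𝒰 n ∈ OmegaS X` let `𝒰' m` be the set of all
`U \ closure (T j)` with `U ∈ 𝒰 m`, `∀ i < m, t i ∈ U`, `m ≤ j`.  These are `MinBounded` (remove a regular
closed set) and `𝒰' m ∈ OmegaS X` (for finite `F` take `U ⊇ F ∪ {t i | i < m}` and `j ≥ m` with
`closure (T j)` disjoint from `F`).  `S1OmegaGamma` gives `S m ∈ 𝒰' m` with `range S ∈ GammaS X`.  A set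
`S` is `S m` for only finitely many `m`: otherwise all the `t i ∈ S` (`t i ∉ closure (T j)` for
`i < m ≤ j`), but `S = U \ closure (T j)` misses `t j`.  So each `x` is in `S m ⊆ U m` for all but
finitely many `m`. -/
def S_R (X : Type*) [TopologicalSpace X] : Prop := T2Space X → Infinite X → OpenWhyburn X →
  S1OmegaGamma X → StrongSelection X

/-- **TH** (50 lines). Proof. Apply `StrongSelection` to the constant sequence of the family of the sets
`(closure B)ᶜ ∪ {d}`, `B` open, `d ∈ closure B`, `d ∉ interior (closure B)`.  These sets are `MinBounded`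
(`d` is not isolated).  For a finite `F` take an open `N ∋ d` with `closure N ∩ F ⊆ {d}` (Hausdorff) and
`B = N ∩ U1`: `d ∉ interior (closure B)`, as `U2 ∩ closure U1 = ∅` and `d ∈ closure U2`. -/
def S_TH (X : Type*) [TopologicalSpace X] : Prop := T2Space X → StrongSelection X →
  ∀ (d : X) (U1 U2 : Set X), IsOpen U1 → IsOpen U2 → Disjoint U1 U2 → d ∈ closure U1 →
    d ∈ closure U2 → ∃ B : ℕ → Set X, (∀ k, IsOpen (B k)) ∧ (∀ k, d ∈ closure (B k)) ∧
      (∀ k, d ∉ interior (closure (B k))) ∧ ∀ y, y ≠ d → ∀ᶠ k in atTop, y ∉ closure (B k)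

/-- **DO** (60 lines). Proof. `E n k = ⋃ i < n, closure (B (d i) k)` is the closure of an open set.
`𝒰 n = {(interior (E n k))ᶜ : k}` is in `OmegaS X`: complements of regular open sets are
`MinBounded`; for a finite `F` a large `k` works: if `y ≠ d i` for all `i < n` then `y ∉ E n k` for large
`k`; if `y` is one of the `d i` (`i < n`) then `y ∉ closure (B (d i) k)` for all `d i ≠ y`, so
`y ∈ interior (E n k)` would give `y ∈ interior (closure (B y k))`.  `StrongSelection` gives `k n` with
each `y ∉ interior (E n (k n))` for almost all `n`.  `O N = ⋃ n ≥ N, ⋃ i < n, B (d i) (k n)`. -/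
def S_DO (X : Type*) [TopologicalSpace X] : Prop := T2Space X → StrongSelection X →
  ∀ (d : ℕ → X) (B : X → ℕ → Set X), (∀ i k, IsOpen (B (d i) k)) →
    (∀ i k, d i ∈ closure (B (d i) k)) → (∀ i k, d i ∉ interior (closure (B (d i) k))) →
    (∀ i y, y ≠ d i → ∀ᶠ k in atTop, y ∉ closure (B (d i) k)) →
    ∃ O : ℕ → Set X, (∀ n, IsOpen (O n)) ∧ (∀ y, ∀ᶠ n in atTop, y ∉ O n) ∧
      ∀ i n, d i ∈ closure (O n)

/-- **DI** (60 lines). Proof. Let `D k` be the set of the `x` such that in each neighbourhood of `x`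
there are `y, z` with `1 / (k+1) ≤ |f y - f z|`.  `f` is continuous off `⋃ D k`, and `closure (D k)` has
empty interior (in an open nonempty `G ∋ x` there is an open nonempty `W` with
`|f - f x| < 1 / (2 (k+1))` on `W`).  If `f` is not continuous at `x` there is `ε` such that
`|f y - f x| ≥ ε` for some `y` in every neighbourhood; `U1 = interior {|f - f x| < ε / 3}`,
`U2 = interior {|f - f x| > 2 ε / 3}`. -/
def S_DI (X : Type*) [TopologicalSpace X] : Prop :=
  (∀ N : Set X, IsClosed N → interior N = ∅ → N.Countable) →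
  ∀ f : X → ℝ, Quasicontinuous f → {x | ¬ ContinuousAt f x}.Countable ∧
    ∀ x, ¬ ContinuousAt f x → ∃ U1 U2 : Set X, IsOpen U1 ∧ IsOpen U2 ∧ Disjoint U1 U2 ∧
      x ∈ closure U1 ∧ x ∈ closure U2

/-- **SO** (30 lines). If `f`, `g` are quasicontinuous, `f` continuous at `x`, and `|g x - f x|` is in
an open set `V` of reals, then each open `G ∋ x` contains an open nonempty `W` with
`|g - f| ∈ V` on `W`. -/
def S_SO (X : Type*) [TopologicalSpace X] : Prop := ∀ f g : X → ℝ, Quasicontinuous g →
  ∀ x, ContinuousAt f x → ∀ V : Set ℝ, IsOpen V → |g x - f x| ∈ V → ∀ G : Set X, IsOpen G → x ∈ G →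
    ∃ W : Set X, IsOpen W ∧ W.Nonempty ∧ W ⊆ G ∧ ∀ y ∈ W, |g y - f y| ∈ V

/-- **FI** (from SO; 90 lines). Proof. Let `q` enumerate `⋃ n, closure (O n) \ O n` (which contains the
closure `D'` of the set of discontinuities, as each `y` is outside some `O n`); let
`A n = {g ∈ A : ∀ i ≤ n, |g (q i) - f (q i)| < 1/(n+1)}`.  For `g ∈ A n` let `W = {x : |g x - f x| < 1/(n+1)}`
and `V = W ∪ D' ∪ O n`; `V ⊆ closure (interior V)`.  `StrongSelection` for the families of the
`V ∪ interior (closure V)` (`minBounded_union`), `g ∈ A n`, gives `g n ∈ A n`.  `y = q i`: clear.  Otherwise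
`y ∉ closure (O n)` for large `n`, `y ∉ D'`, and `y ∈ V ∪ interior (closure V)` gives
`|g n y - f y| ≤ 1/(n+1)`: if not, SO gives an open nonempty `W' ⊆ interior (closure V)` disjoint from `D'`,
`closure (O n)` and `W`.  (The set of discontinuities may be empty; then `O n = ∅` is possible and
there may be no `q`: use `q : ℕ → Option X` or a case distinction.) -/
def S_FI (X : Type*) [TopologicalSpace X] : Prop := StrongSelection X →
  ∀ (f : Qp X) (O : ℕ → Set X), (∀ n, IsOpen (O n)) → (∀ y, ∀ᶠ n in atTop, y ∉ O n) →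
    (∀ x n, ¬ ContinuousAt f.1 x → x ∈ closure (O n)) →
    (⋃ n, closure (O n) \ O n).Countable → FrechetUrysohnAt f

/-- The goal. -/
def Goal (X : Type*) [TopologicalSpace X] : Prop := T2Space X → OpenWhyburn X → S1OmegaGamma X →
  ∀ f : Qp X, FrechetUrysohnAt f

end Pool.Agent.Run7.h347.OW
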